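import Mathlib
import Pool.Agent.N392.WH.Pure

/-!
# Weyl–Heisenberg covariant approximate SICs in dimension `q - 1`

A Weyl–Heisenberg SIC fiducial is a unit vector `ψ` in `ℂ ^ d` with
`(d + 1) |⟨ψ, X ^ a Z ^ b ψ⟩| ^ 2 = 1` for all `(a, b) ≠ (0, 0)`. We show that if `d + 1` is a prime
power there is a unit vector for which all these `d ^ 2 - 1` numbers differ from `1` by at most
`30 (d + 1) ^ (-1/4)`.

The vector is a normalised sum `u + c |0⟩ + c f` with `c = (d + 1) ^ (-1/4)`, where `f` is the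
constant unit vector and `u` is the normalised sequence `j ↦ χ (g ^ j)`, `χ` a non-trivial additive
character and `g` a generator of the multiplicative group of the field with `q = d + 1` elements. The
overlaps of `u` are Gauss sums if `a ≠ 0` and `b ≠ 0` and nearly vanish otherwise; the two spikes (in
position and in momentum) give the correct value on the two axes and disturb the Gauss sums
only by a relative error `O (c)`.
-/

set_option autoImplicit false

namespace Pool.Agent.Results.MP_1c78a5_mp.ApproximateFiducials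

open Matrix Finset

variable {d : ℕ} [NeZero d]

/-- `ω ^ x` for a residue `x` modulo `d`, where `ω = exp (2 π i / d)` -/
noncomputable def omegaPow (x : ZMod d) : ℂ :=
  Complex.exp (2 * Real.pi * Complex.I * (x.val : ℂ) / (d : ℂ))

/-- the displacement operator `X ^ a Z ^ b`, which maps `|j⟩` to `ω ^ (b j) |j + a⟩` -/
noncomputable def displacement (a b : ZMod d) : Matrix (ZMod d) (ZMod d) ℂ :=
  Matrix.of fun i j => if i = j + a then omegaPow (b * j) else 0

/-- `|⟨ψ, X ^ a Z ^ b ψ⟩| ^ 2` -/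
noncomputable def overlapSq (ψ : ZMod d → ℂ) (a b : ZMod d) : ℝ :=
  ‖star ψ ⬝ᵥ (displacement a b *ᵥ ψ)‖ ^ 2

theorem omegaPow_eq (x : ZMod d) : omegaPow x = R503.SIC.e x := by
  unfold omegaPow R503.SIC.e
  rw [ZMod.stdAddChar_apply, ZMod.toCircle_apply]

theorem overlap_eq (ψ : ZMod d → ℂ) (a b : ZMod d) :
    star ψ ⬝ᵥ (displacement a b *ᵥ ψ) = R503.SIC.ov ψ a b := by
  unfold R503.SIC.ov
  have h1 : ∀ i, (displacement a b *ᵥ ψ) i = omegaPow (b * (i - a)) * ψ (i - a) := by
    intro i
    rw [Matrix.mulVec, dotProduct, Finset.sum_eq_single (i - a)]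
    · simp [displacement]
    · intro j _ hj
      simp only [displacement, Matrix.of_apply]
      rw [if_neg (fun h => hj (by rw [h]; ring)), zero_mul]
    · intro h; exact absurd (Finset.mem_univ _) h
  rw [dotProduct]
  refine Fintype.sum_equiv (Equiv.subRight a) _ _ fun i => ?_
  rw [h1, omegaPow_eq, Pi.star_apply]
  simp

/-- **Weyl–Heisenberg covariant approximate SICs in dimension `q - 1`.** If `d + 1` is a prime
power, there is a unit vector `ψ` in `ℂ ^ d` such that
`|(d + 1) |⟨ψ, X ^ a Z ^ b ψ⟩| ^ 2 - 1| ≤ 30 (d + 1) ^ (-1/4)` for all `(a, b) ≠ (0, 0)`. -/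
theorem result (d : ℕ) [NeZero d] (hd : IsPrimePow (d + 1)) :
    ∃ ψ : ZMod d → ℂ, ∑ j, ‖ψ j‖ ^ 2 = 1 ∧ ∀ a b : ZMod d, (a, b) ≠ (0, 0) →
      |((d : ℝ) + 1) * overlapSq ψ a b - 1| ≤ 30 * ((d : ℝ) + 1) ^ (-(1 / 4) : ℝ) := by
  obtain ⟨q, n, hq, hn, hqn⟩ := hd
  have hq' : Fact q.Prime := ⟨hq.nat_prime⟩
  have hcard : Nat.card (GaloisField q n) = d + 1 := by
    rw [GaloisField.card q n hn.ne', hqn]
  have hfin : Finite (GaloisField q n) := Nat.finite_of_card_ne_zero (by omega)
  have hfi : Fintype (GaloisField q n) := Fintype.ofFinite _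
  have hu : Nat.card (GaloisField q n)ˣ = d := by
    rw [Nat.card_units, hcard, Nat.add_sub_cancel]
  have hE : Nonempty (Multiplicative (ZMod d) ≃* (GaloisField q n)ˣ) := by
    rw [← hu]
    exact ⟨zmodCyclicMulEquiv inferInstance⟩
  obtain ⟨E⟩ := hE
  obtain ⟨ψ, h1, h2⟩ := N392.WH.pure_case E
    (AddChar.FiniteField.primitiveChar_to_Complex_isPrimitive (GaloisField q n))
  refine ⟨ψ, h1, fun a b hab => ?_⟩
  unfold overlapSq
  rw [overlap_eq]
  exact h2 a b hab

end Pool.Agent.Results.MP_1c78a5_mp.ApproximateFiducials
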