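import Mathlib
import Pool.Agent.N655.WH.Main

/-!
# Weyl–Heisenberg covariant near-SICs in every dimension, with an absolute constant

A Weyl–Heisenberg SIC fiducial is a unit vector `ψ` in `ℂ ^ d` with
`|⟨ψ, X ^ a Z ^ b ψ⟩| ^ 2 = 1 / (d + 1)` for all `(a, b) ≠ (0, 0)`. We show that in every dimension
`d` there is a unit vector `ψ` for which all these `d ^ 2 - 1` numbers are non-zero (so that the
`d ^ 2` projectors of the orbit are informationally complete) and at most `7500 / (d + 1)`.

Idea of the proof: `ψ` is the periodisation modulo `d` of two cosine windows on the integers of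
total length `3 d / 2`, which carry the cubic phases `exp (2 π i (t r ^ 3 + κ r ^ 2) / p)` modulo a
prime `p` between `2 d` and `4 d`, `3 t = 1`, with `κ` different for the two windows. The squares of
the two windows form a partition of unity modulo `d`, which deals with `a = 0`. Everything else is a
sum of at most eight smooth quadratic exponential sums modulo `p` with leading coefficient non-zero
modulo `p`; such sums are `O (√ p)` *without* the logarithm of incomplete Gauss sums, uniformly in
the linear coefficient (which is not a multiple of `1 / p`). This is proved with a resolvent: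
`(1 - z ^ p) F (j) = ∑ z ^ l D (j - l)` for `D (j) = F (j) - z F (j - 1)`, the Cauchy–Schwarz
inequality, and Parseval's identity for the `p` translates of a quadratic phase.
-/

set_option autoImplicit false

namespace Pool.Agent.Results.MP_1c78a5_mp.NearSICsInEveryDimension

open Matrix Finset

variable {d : ℕ} [NeZero d]

/-- `ω ^ x` for a residue `x` modulo `d`, where `ω = exp (2 π i / d)` -/
noncomputable def omegaPow (x : ZMod d) : ℂ :=
  Complex.exp (2 * Real.pi * Complex.I * (x.val : ℂ) / (d : ℂ))

/-- the displacement operator `X ^ a Z ^ b`, which maps `|j⟩` to `ω ^ (b j) |j + a⟩` -/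
noncomputable def displacement (a b : ZMod d) : Matrix (ZMod d) (ZMod d) ℂ :=
  Matrix.of fun i j => if i = j + a then omegaPow (b * j) else 0

/-- `|⟨ψ, X ^ a Z ^ b ψ⟩| ^ 2` for `p = (a, b)` -/
noncomputable def overlapSq (ψ : ZMod d → ℂ) (p : ZMod d × ZMod d) : ℝ :=
  ‖star ψ ⬝ᵥ (displacement p.1 p.2 *ᵥ ψ)‖ ^ 2

/-- unit vectors -/
def IsUnitVector (ψ : ZMod d → ℂ) : Prop := ∑ j, ‖ψ j‖ ^ 2 = 1

theorem omegaPow_eq (x : ZMod d) : omegaPow x = R503.SIC.e x := by
  unfold omegaPow R503.SIC.e
  rw [ZMod.stdAddChar_apply, ZMod.toCircle_apply]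

theorem overlap_eq (ψ : ZMod d → ℂ) (a b : ZMod d) :
    star ψ ⬝ᵥ (displacement a b *ᵥ ψ) = R503.SIC.ov ψ a b := by
  unfold R503.SIC.ov
  have h1 : ∀ i, (displacement a b *ᵥ ψ) i = omegaPow (b * (i - a)) * ψ (i - a) := by
    intro i
    rw [Matrix.mulVec, dotProduct, Finset.sum_eq_single (i - a)]
    · simp [displacement]
    · intro j _ hj
      simp only [displacement, Matrix.of_apply]
      rw [if_neg (fun h => hj (by rw [h]; ring)), zero_mul]
    · intro h; exact absurd (Finset.mem_univ _) h
  rw [dotProduct]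
  refine Fintype.sum_equiv (Equiv.subRight a) _ _ fun i => ?_
  rw [h1, omegaPow_eq, Pi.star_apply]
  simp

/-- **Weyl–Heisenberg covariant near-SICs in every dimension.** For every `d ≥ 1` there is a unit
vector `ψ` in `ℂ ^ d` such that `0 < |⟨ψ, X ^ a Z ^ b ψ⟩| ^ 2 < 7500 / (d + 1)` for all
`(a, b) ≠ (0, 0)`. (For a SIC fiducial these numbers are `1 / (d + 1)`; their mean is `1 / (d + 1)`
for every unit vector.) -/
theorem result (d : ℕ) [NeZero d] : ∃ ψ : ZMod d → ℂ, IsUnitVector ψ ∧
    ∀ p : ZMod d × ZMod d, p ≠ 0 →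
      0 < overlapSq ψ p ∧ overlapSq ψ p < 7500 / ((d : ℝ) + 1) := by
  obtain ⟨ψ, h1, h2⟩ := N655.WH.near_sic d
  refine ⟨ψ, h1, fun p hp => ?_⟩
  unfold overlapSq
  rw [overlap_eq]
  exact h2 p.1 p.2 (fun h => hp (by rw [Prod.ext_iff] at h ⊢; exact h))

end Pool.Agent.Results.MP_1c78a5_mp.NearSICsInEveryDimension
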