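import Mathlib
import Pool.Agent.N392.WH.Sim
import Pool.Agent.N392.WH.Opt

/-!
# Weyl–Heisenberg covariant symmetric measurements of rank two and three

A Weyl–Heisenberg SIC fiducial is a unit vector `ψ` in `ℂ ^ d` with
`|⟨ψ, X ^ a Z ^ b ψ⟩| = 1 / √(d + 1)` for all `(a, b) ≠ (0, 0)`. We replace the pure state `ψ ψ^*` by
a density matrix `ρ` and ask that `|Tr (ρ X ^ a Z ^ b)|` is *exactly* the same number `t` for all
`(a, b) ≠ (0, 0)` (the symmetric informationally complete measurements of arbitrary rank of Appleby).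
Always `t ≤ 1 / √(d + 1)`, and equality means that `ρ = ψ ψ^*` for a SIC fiducial `ψ`. We construct
such `ρ` of rank two with `t = 1 / (√d + 1)` if `d ≥ 5` is prime, and of rank three with
`t = 1 / (√(d + 1) + 2)` if `d + 1` is a prime power.

For prime `d` one takes the mixture of a cubic (Alltop) sequence, for which `|⟨u, X ^ a Z ^ b u⟩|` is
`1 / √d` if `a ≠ 0` and `0` if `a = 0 ≠ b`, with the basis vector `|0⟩`, which contributes only if
`a = 0`. For `d = q - 1` one takes the sequence `j ↦ χ (g ^ j)`, `χ` an additive character and `g` a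
generator of the multiplicative group of the field with `q` elements (the overlaps are Gauss sums),
the vector `|0⟩` and the constant vector, which contribute only for `a = 0` and for `b = 0`.
-/

set_option autoImplicit false

namespace Pool.Agent.Results.MP_1c78a5_mp.SymmetricMeasurements

open Matrix Finset
open scoped ComplexOrder

variable {d : ℕ} [NeZero d]

/-- `ω ^ x` for a residue `x` modulo `d`, where `ω = exp (2 π i / d)` -/
noncomputable def omegaPow (x : ZMod d) : ℂ :=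
  Complex.exp (2 * Real.pi * Complex.I * (x.val : ℂ) / (d : ℂ))

/-- the displacement operator `X ^ a Z ^ b`, which maps `|j⟩` to `ω ^ (b j) |j + a⟩` -/
noncomputable def displacement (a b : ZMod d) : Matrix (ZMod d) (ZMod d) ℂ :=
  Matrix.of fun i j => if i = j + a then omegaPow (b * j) else 0

/-- `ρ` is a density matrix with `|Tr (ρ X ^ a Z ^ b)| = t` for all `(a, b) ≠ (0, 0)` -/
def IsSymmetric (ρ : Matrix (ZMod d) (ZMod d) ℂ) (t : ℝ) : Prop :=
  ρ.PosSemidef ∧ ρ.trace = 1 ∧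
    ∀ a b : ZMod d, (a, b) ≠ (0, 0) → ‖(ρ * displacement a b).trace‖ = t

/-- Weyl–Heisenberg SIC fiducial vectors -/
def IsFiducial (ψ : ZMod d → ℂ) : Prop :=
  ∑ j, ‖ψ j‖ ^ 2 = 1 ∧ ∀ a b : ZMod d, (a, b) ≠ (0, 0) →
    ‖star ψ ⬝ᵥ (displacement a b *ᵥ ψ)‖ ^ 2 = 1 / ((d : ℝ) + 1)

theorem omegaPow_eq (x : ZMod d) : omegaPow x = R503.SIC.e x := by
  unfold omegaPow R503.SIC.e
  rw [ZMod.stdAddChar_apply, ZMod.toCircle_apply]

theorem trace_mul_displacement (ρ : Matrix (ZMod d) (ZMod d) ℂ) (a b : ZMod d) :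
    (ρ * displacement a b).trace = N392.WH.tr ρ a b := by
  unfold N392.WH.tr Matrix.trace
  refine Finset.sum_congr rfl fun j _ => ?_
  rw [Matrix.diag_apply, Matrix.mul_apply, Finset.sum_eq_single (j + a)]
  · simp [displacement, omegaPow_eq]
  · intro k _ hk
    simp only [displacement, Matrix.of_apply]
    rw [if_neg hk, mul_zero]
  · intro h; exact absurd (Finset.mem_univ _) h

theorem overlap_eq (ψ : ZMod d → ℂ) (a b : ZMod d) :
    star ψ ⬝ᵥ (displacement a b *ᵥ ψ) = R503.SIC.ov ψ a b := by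
  unfold R503.SIC.ov
  have h1 : ∀ i, (displacement a b *ᵥ ψ) i = omegaPow (b * (i - a)) * ψ (i - a) := by
    intro i
    rw [Matrix.mulVec, dotProduct, Finset.sum_eq_single (i - a)]
    · simp [displacement]
    · intro j _ hj
      simp only [displacement, Matrix.of_apply]
      rw [if_neg (fun h => hj (by rw [h]; ring)), zero_mul]
    · intro h; exact absurd (Finset.mem_univ _) h
  rw [dotProduct]
  refine Fintype.sum_equiv (Equiv.subRight a) _ _ fun i => ?_
  rw [h1, omegaPow_eq, Pi.star_apply]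
  simp

theorem isFiducial_iff (ψ : ZMod d → ℂ) : IsFiducial ψ ↔ R503.SIC.Fid ψ := by
  unfold IsFiducial R503.SIC.Fid
  simp only [overlap_eq]

/-- **Symmetric measurements of small rank.** (1) If `p ≥ 5` is prime, there is a density matrix
`ρ` on `ℂ ^ p` of rank at most two with `|Tr (ρ X ^ a Z ^ b)| = 1 / (√p + 1)` for all
`(a, b) ≠ (0, 0)`. (2) If `d + 1` is a prime power, there is a density matrix `ρ` on `ℂ ^ d` of rank
at most three with `|Tr (ρ X ^ a Z ^ b)| = 1 / (√(d + 1) + 2)` for all `(a, b) ≠ (0, 0)`. (3) If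
`d ≥ 2` and `ρ` is a density matrix on `ℂ ^ d` with `|Tr (ρ X ^ a Z ^ b)| = t` for all
`(a, b) ≠ (0, 0)`, then `t ≤ 1 / √(d + 1)`, with equality if and only if `ρ = ψ ψ^*` for a
Weyl–Heisenberg SIC fiducial `ψ`. -/
theorem result :
    (∀ (p : ℕ) [Fact p.Prime], 5 ≤ p →
      ∃ ρ : Matrix (ZMod p) (ZMod p) ℂ, ρ.rank ≤ 2 ∧ IsSymmetric ρ (1 / (Real.sqrt p + 1))) ∧
    (∀ (d : ℕ) [NeZero d], IsPrimePow (d + 1) →
      ∃ ρ : Matrix (ZMod d) (ZMod d) ℂ, ρ.rank ≤ 3 ∧
        IsSymmetric ρ (1 / (Real.sqrt ((d : ℝ) + 1) + 2))) ∧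
    (∀ (d : ℕ) [NeZero d], 2 ≤ d → ∀ (ρ : Matrix (ZMod d) (ZMod d) ℂ) (t : ℝ), IsSymmetric ρ t →
      t ≤ 1 / Real.sqrt ((d : ℝ) + 1) ∧
      (t = 1 / Real.sqrt ((d : ℝ) + 1) ↔ ∃ ψ, IsFiducial ψ ∧ ρ = vecMulVec ψ (star ψ))) := by
  refine ⟨fun p _ hp => ?_, fun d _ hd => ?_, fun d _ hd ρ t h => ?_⟩
  · obtain ⟨ρ, h1, h2, h3, h4⟩ := N392.WH.prime_case hp
    exact ⟨ρ, h3, h1, h2, fun a b hab => by rw [trace_mul_displacement, h4 a b hab]⟩
  · obtain ⟨q, n, hq, hn, hqn⟩ := hd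
    have hq' : Fact q.Prime := ⟨hq.nat_prime⟩
    have hcard : Nat.card (GaloisField q n) = d + 1 := by
      rw [GaloisField.card q n hn.ne', hqn]
    have hfin : Finite (GaloisField q n) := Nat.finite_of_card_ne_zero (by omega)
    have hfi : Fintype (GaloisField q n) := Fintype.ofFinite _
    have hu : Nat.card (GaloisField q n)ˣ = d := by
      rw [Nat.card_units, hcard, Nat.add_sub_cancel]
    have hE : Nonempty (Multiplicative (ZMod d) ≃* (GaloisField q n)ˣ) := by
      rw [← hu]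
      exact ⟨zmodCyclicMulEquiv inferInstance⟩
    obtain ⟨E⟩ := hE
    obtain ⟨ρ, h1, h2, h3, h4⟩ := N392.WH.welch_case E
      (AddChar.FiniteField.primitiveChar_to_Complex_isPrimitive (GaloisField q n))
    exact ⟨ρ, h3, h1, h2, fun a b hab => by rw [trace_mul_displacement, h4 a b hab]⟩
  · have h4 : ∀ a b : ZMod d, (a, b) ≠ (0, 0) → ‖N392.WH.tr ρ a b‖ = t := fun a b hab => by
      rw [← trace_mul_displacement, h.2.2 a b hab]
    have h5 := N392.WH.opt hd h.1 h.2.1 h4
    refine ⟨h5.1, fun ht => ?_, ?_⟩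
    · obtain ⟨x, hx, hρ⟩ := h5.2 ht
      exact ⟨x, (isFiducial_iff x).2 hx, hρ⟩
    · rintro ⟨x, hx, hρ⟩
      have h6 := (N392.WH.proj_of_fid ((isFiducial_iff x).1 hx)).2.2 1 0
      have hd1 : Fact (1 < d) := ⟨hd⟩
      have h7 : ((1 : ZMod d), (0 : ZMod d)) ≠ (0, 0) := by simp
      have h8 := h4 1 0 h7
      rw [hρ] at h8
      rw [← h8]
      exact h6 h7

end Pool.Agent.Results.MP_1c78a5_mp.SymmetricMeasurements
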