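import Mathlib
import Pool.Agent.N392.WH.Sector

/-!
# Zeros and angles of the entries of Weyl–Heisenberg SIC fiducials

A Weyl–Heisenberg SIC fiducial is a unit vector `ψ` in `ℂ ^ d` with
`|⟨ψ, X ^ a Z ^ b ψ⟩| ^ 2 = 1 / (d + 1)` for all `(a, b) ≠ (0, 0)`. We prove necessary conditions on
the positions of the zero entries and on the arguments of the nonzero entries of a fiducial:
all cosets of a subgroup `H` of `ℤ / d`, up to a proportion about `|H| / (|H| + 1)` of them, contain
a nonzero entry; a run of zeros along an arithmetic progression with unit step is shorter than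
`d / 3`; two of the nonzero entries make an angle of at least `π / 4` unless `d` is `1` or `3`; for
even `d` some pair of nonzero entries at distance `d / 2` makes an angle between `π / 4` and
`3 π / 4`, so that no fiducial is real up to a phase.

The proofs use the four term relations
`∑ j, ψ j * conj ψ (j + a) * conj ψ (j + k) * ψ (j + a + k) = 0` (`a, k ≠ 0`), in which for suitable
`a` and `k` exactly one term is nonzero, or all terms have nonnegative real part.
-/

set_option autoImplicit false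

namespace Pool.Agent.Results.MP_1c78a5_mp.ZerosAndPhases

open Matrix Finset

variable {d : ℕ} [NeZero d]

/-- `ω ^ x` for a residue `x` modulo `d`, where `ω = exp (2 π i / d)` -/
noncomputable def omegaPow (x : ZMod d) : ℂ :=
  Complex.exp (2 * Real.pi * Complex.I * (x.val : ℂ) / (d : ℂ))

/-- the displacement operator `X ^ a Z ^ b`, which maps `|j⟩` to `ω ^ (b j) |j + a⟩` -/
noncomputable def displacement (a b : ZMod d) : Matrix (ZMod d) (ZMod d) ℂ :=
  Matrix.of fun i j => if i = j + a then omegaPow (b * j) else 0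

/-- Weyl–Heisenberg SIC fiducial vectors -/
def IsFiducial (ψ : ZMod d → ℂ) : Prop :=
  ∑ j, ‖ψ j‖ ^ 2 = 1 ∧ ∀ a b : ZMod d, (a, b) ≠ (0, 0) →
    ‖star ψ ⬝ᵥ (displacement a b *ᵥ ψ)‖ ^ 2 = 1 / ((d : ℝ) + 1)

theorem omegaPow_eq (x : ZMod d) : omegaPow x = R503.SIC.e x := by
  unfold omegaPow R503.SIC.e
  rw [ZMod.stdAddChar_apply, ZMod.toCircle_apply]

theorem overlap_eq (ψ : ZMod d → ℂ) (a b : ZMod d) :
    star ψ ⬝ᵥ (displacement a b *ᵥ ψ) = R503.SIC.ov ψ a b := by
  unfold R503.SIC.ov
  have h1 : ∀ i, (displacement a b *ᵥ ψ) i = omegaPow (b * (i - a)) * ψ (i - a) := by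
    intro i
    rw [Matrix.mulVec, dotProduct, Finset.sum_eq_single (i - a)]
    · simp [displacement]
    · intro j _ hj
      simp only [displacement, Matrix.of_apply]
      rw [if_neg (fun h => hj (by rw [h]; ring)), zero_mul]
    · intro h; exact absurd (Finset.mem_univ _) h
  rw [dotProduct]
  refine Fintype.sum_equiv (Equiv.subRight a) _ _ fun i => ?_
  rw [h1, omegaPow_eq, Pi.star_apply]
  simp

theorem isFiducial_iff (ψ : ZMod d → ℂ) : IsFiducial ψ ↔ R503.SIC.Fid ψ := by
  unfold IsFiducial R503.SIC.Fid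
  simp only [overlap_eq]

/-- **Zeros and angles of SIC fiducials.** Let `ψ` be a Weyl–Heisenberg SIC fiducial in `ℂ ^ d`.
(1) For every subgroup `H` of `ℤ / d` the number `n` of cosets of `H` that contain an index `j` with
`ψ j ≠ 0` satisfies `d + 1 ≤ (|H| + 1) n`. (2) If `d ≥ 4` and `ψ` vanishes at the `g` indices
`c, c + s, …, c + (g - 1) s`, where `s` is a unit modulo `d`, then `3 g + 2 ≤ d`. (3) If `d` is not
`1` or `3`, then two of the nonzero entries of `ψ` make an angle of at least `π / 4`. (4) If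
`a ≠ 0 = 2 a` in `ℤ / d`, then for some `j` the entries `ψ j` and `ψ (j + a)` are nonzero and make an
angle between `π / 4` and `3 π / 4`. -/
theorem result (d : ℕ) [NeZero d] (ψ : ZMod d → ℂ) (h : IsFiducial ψ) :
    (∀ H : AddSubgroup (ZMod d), d + 1 ≤ (Nat.card H + 1) *
      {c : ZMod d ⧸ H | ∃ j : ZMod d, ψ j ≠ 0 ∧ (j : ZMod d ⧸ H) = c}.ncard) ∧
    (4 ≤ d → ∀ (c s : ZMod d) (g : ℕ), IsUnit s →
      (∀ i : ℕ, i < g → ψ (c + s * (i : ZMod d)) = 0) → 3 * g + 2 ≤ d) ∧
    (d ≠ 1 → d ≠ 3 → ∃ i j, ψ i ≠ 0 ∧ ψ j ≠ 0 ∧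
      Real.pi / 4 ≤ InnerProductGeometry.angle (ψ i) (ψ j)) ∧
    (∀ a : ZMod d, a ≠ 0 → a + a = 0 → ∃ j, ψ j ≠ 0 ∧ ψ (j + a) ≠ 0 ∧
      Real.pi / 4 ≤ InnerProductGeometry.angle (ψ j) (ψ (j + a)) ∧
      InnerProductGeometry.angle (ψ j) (ψ (j + a)) ≤ 3 * Real.pi / 4) := by
  have hf := (isFiducial_iff ψ).1 h
  refine ⟨N392.WH.coset_bound hf, fun hd c s g hs hg => N392.WH.runs hf hd hs hg,
    fun h1 h3 => ?_, fun a ha h2 => ?_⟩
  · by_contra hcon
    push Not at hcon
    rcases N392.WH.sector hf fun i j hi hj =>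
      N392.WH.cone_of_angle hi hj (hcon i j hi hj) with h4 | h4
    · exact h1 h4
    · exact h3 h4
  · obtain ⟨j, hj, hja, hle⟩ := N392.WH.order_two hf ha h2
    have h4 : InnerProductGeometry.angle (ψ (j + a)) (ψ j) =
        InnerProductGeometry.angle (ψ j) (ψ (j + a)) := InnerProductGeometry.angle_comm _ _
    refine ⟨j, hj, hja, ?_, ?_⟩
    · by_contra hlt
      push Not at hlt
      have h5 := N392.WH.cone_of_angle' hja hj (Or.inl (by rw [h4]; exact hlt))
      exact absurd hle (not_le.2 h5)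
    · by_contra hlt
      push Not at hlt
      have h5 := N392.WH.cone_of_angle' hja hj (Or.inr (by rw [h4]; exact hlt))
      exact absurd hle (not_le.2 h5)

end Pool.Agent.Results.MP_1c78a5_mp.ZerosAndPhases
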